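import Pool.Agent.Lib.MP_4aff23_co.Asm
import Pool.Agent.Lib.MP_4aff23_co.P_LEN
import Pool.Agent.Lib.MP_4aff23_co.P_FAT
import Pool.Agent.Lib.MP_4aff23_co.P_GLU
import Pool.Agent.Lib.MP_4aff23_co.P_NRV
import Pool.Agent.Lib.MP_4aff23_co.P_SUB
import Pool.Agent.Lib.MP_4aff23_co.P_UNS
import Pool.Agent.Lib.MP_4aff23_co.P_CUT
import Pool.Agent.Lib.MP_4aff23_co.P_WED
import Pool.Agent.Lib.MP_4aff23_co.P_CLO
import Pool.Agent.Lib.MP_4aff23_co.P_CNE
import Pool.Agent.Lib.MP_4aff23_co.P_HOM
import Pool.Agent.Lib.MP_4aff23_co.P_FIN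

/-!
# Q1 is equivalent to the graph minor theorem

All definitions are in `Pool/Agent/Lib/MP_4aff23_co/Defs.lean`.
-/

universe u

namespace Pool.Agent.Results.MP_4aff23_co.Equivalence

open Pool.Agent.Lib.MP_4aff23_co

/-- The question Q1 has the answer yes if and only if finite graphs are well-quasi-ordered by
asymptotic minors in length spaces, if and only if the graph minor theorem holds (every infinite
sequence of finite graphs has `i < j` with the `i`-th a minor of the `j`-th), if and only if every
minor-closed class of finite graphs is given by finitely many excluded minors. -/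
theorem result :
    List.TFAE [Q1.{u}, AsymptoticWQO.{u}, GraphMinorTheorem, RobertsonSeymour] :=
  (main p_CLO p_LEN p_FAT (p_NRV p_GLU) p_SUB p_UNS (p_WED p_CUT p_HOM) p_HOM p_HOM p_CNE
    (p_FIN p_HOM p_TRN)).2.2

end Pool.Agent.Results.MP_4aff23_co.Equivalence
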