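import Pool.Agent.Lib.MP_4aff23_co.Asm
import Pool.Agent.Lib.MP_4aff23_co.P_LEN
import Pool.Agent.Lib.MP_4aff23_co.P_FAT
import Pool.Agent.Lib.MP_4aff23_co.P_GLU
import Pool.Agent.Lib.MP_4aff23_co.P_NRV
import Pool.Agent.Lib.MP_4aff23_co.P_SUB
import Pool.Agent.Lib.MP_4aff23_co.P_UNS
import Pool.Agent.Lib.MP_4aff23_co.P_CUT
import Pool.Agent.Lib.MP_4aff23_co.P_WED
import Pool.Agent.Lib.MP_4aff23_co.P_CLO
import Pool.Agent.Lib.MP_4aff23_co.P_CNE
import Pool.Agent.Lib.MP_4aff23_co.P_HOM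
import Pool.Agent.Lib.MP_4aff23_co.P_FIN

/-!
# The least size of a replacement

All definitions are in `Pool/Agent/Lib/MP_4aff23_co/Defs.lean`.
-/

universe u

namespace Pool.Agent.Results.MP_4aff23_co.ExactSize

open Pool.Agent.Lib.MP_4aff23_co

/-- Let `F` be a (possibly infinite) set of finite graphs that are 2-connected with minimum degree at
least three, and `n` a natural number or infinite. Some set of at most `n` finite graphs is excluded
asymptotically by the same length spaces as `F` if and only if at most `n` members of `F` suffice to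
give every member of `F` one of them as an ordinary minor. -/
theorem result (F : Set FinGraph) (hF : ∀ Δ ∈ F, TwoConnThree Δ.2) (n : ℕ∞) :
    (∃ F₀ : Set FinGraph, F₀.encard ≤ n ∧ Replaces.{u} F₀ F) ↔
      ∃ F₀ : Set FinGraph, F₀.encard ≤ n ∧ IsBasis F₀ F := by
  obtain ⟨h1, h2, -⟩ := main.{u} p_CLO p_LEN p_FAT (p_NRV p_GLU) p_SUB p_UNS (p_WED p_CUT p_HOM)
    p_HOM p_HOM p_CNE (p_FIN p_HOM p_TRN)
  constructor
  · rintro ⟨F₀, hn, hR⟩
    obtain ⟨F₁, hB, hle⟩ := h2 F₀ F hF hR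
    exact ⟨F₁, hle.trans hn, hB⟩
  · rintro ⟨F₀, hn, hB⟩
    exact ⟨F₀, hn, h1 F₀ F hB⟩

end Pool.Agent.Results.MP_4aff23_co.ExactSize
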